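import Pool.Agent.SYT.Defs

/-!
# SYT/MV2: Mayer-Vietoris for primitives
-/

open Set Filter Topology

namespace Pool.Agent.SYT

namespace Sys

variable {M : Type*} [TopologicalSpace M] [T2Space M] {ι : Type*} {S : Sys M ι}
  {c : M → ι} {R R' : Set M}

theorem Ex2.union (hc : ∀ m, m ∈ S.U (c m)) (hR : IsCompact R) (hR' : IsCompact R')
    (h : S.Ex2 c R) (h' : S.Ex2 c R') (h1 : S.Ex1 (R ∩ R')) : S.Ex2 c (R ∪ R') := by
  classical
  obtain ⟨V, oV, rV, σ, hσ⟩ := h
  obtain ⟨V', oV', rV', σ', hσ'⟩ := h'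
  let τ : M → M → ℝ := fun m x => σ m x - σ' m x
  have hτ : S.Clo (V ∩ V') τ := by
    intro m hm
    refine ⟨P_sub (hσ m hm.1).1 (hσ' m hm.2).1, ?_⟩
    filter_upwards [(hσ m hm.1).2, (hσ' m hm.2).2] with m' h2 h3
    obtain ⟨a, ha⟩ := S.F_sub h2 h3
    refine ⟨a, S.E_trans (E_eq fun x => ?_) ha⟩
    simp only [τ]
    ring
  obtain ⟨O, oO, rO, sO, f, hf⟩ := h1 (V ∩ V') τ (oV.inter oV') (inter_subset_inter rV rV') hτ
  obtain ⟨ρ, O₁, O₂, o₁, o₂, hK₁, hK₂, hz, hone, hP⟩ := S.cut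
    (hR.diff oO).isClosed (hR'.diff oO).isClosed (by
      rw [Set.disjoint_left]
      rintro m ⟨h1, h2⟩ ⟨h3, _⟩
      exact h2 (rO ⟨h1, h3⟩))
  have hdis : ∀ m ∈ O₁, m ∉ O₂ := by
    intro m h1 h2
    have := hz m h1
    rw [hone m h2] at this
    exact one_ne_zero this
  let N : Set M := O ∪ ((V ∩ O₁) ∪ (V' ∩ O₂))
  have oN : IsOpen N := oO.union ((oV.inter o₁).union (oV'.inter o₂))
  let μ : M → M → ℝ := fun m =>
    if m ∈ O then fun x => σ m x - ρ x * f x else if m ∈ O₂ then σ' m else σ m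
  have μO : ∀ m ∈ O, μ m = fun x => σ m x - ρ x * f x := fun m hm => if_pos hm
  have μ1 : ∀ m ∉ O, m ∈ O₁ → μ m = σ m := fun m hm h1 => by
    simp only [μ, if_neg hm, if_neg (hdis m h1)]
  have μ2 : ∀ m ∉ O, m ∈ O₂ → μ m = σ' m := fun m hm h1 => by
    simp only [μ, if_neg hm, if_pos h1]
  refine ⟨N, oN, ?_, μ, ?_⟩
  · rintro m (hm | hm)
    · by_cases h : m ∈ O
      · exact Or.inl h
      · exact Or.inr (Or.inl ⟨rV hm, hK₁ ⟨hm, h⟩⟩)
    · by_cases h : m ∈ O
      · exact Or.inl h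
      · exact Or.inr (Or.inr ⟨rV' hm, hK₂ ⟨hm, h⟩⟩)
  · -- near the points of `V ∩ O₁`, `μ` is `σ`
    have near1 : ∀ m ∈ O₁, S.E m (μ m) (σ m) := by
      intro m hm
      by_cases h : m ∈ O
      · rw [μO m h]
        refine S.E_of ?_
        filter_upwards [o₁.mem_nhds hm] with x hx
        rw [hz x hx]
        ring
      · rw [μ1 m h hm]
        exact E_rfl
    -- near the points of `V' ∩ O₂`, `μ` is `σ'` up to a constant
    have near2 : ∀ m ∈ O₂, ∃ a : ℝ, S.E m (μ m) (fun x => σ' m x + a) := by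
      intro m hm
      by_cases h : m ∈ O
      · obtain ⟨a, ha⟩ := hf m h
        refine ⟨-a, ?_⟩
        rw [μO m h]
        have e1 : S.E m (fun x => σ m x - ρ x * f x) (fun x => σ m x - f x) := by
          refine S.E_of ?_
          filter_upwards [o₂.mem_nhds hm] with x hx
          rw [hone x hx]
          ring
        refine S.E_trans e1 ?_
        have e2 := E_sub (E_rfl (S := S) (m := m) (f := σ' m)) ha
        refine S.E_trans (E_eq fun x => ?_) (S.E_trans e2 (E_eq fun x => ?_))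
        · simp only [τ]
          ring
        · ring
      · rw [μ2 m h hm]
        exact ⟨0, E_eq fun x => (add_zero _).symm⟩
    intro m hm
    by_cases hmO : m ∈ O
    · have hV : m ∈ V := (sO hmO).1
      rw [μO m hmO]
      refine ⟨P_sub (hσ m hV).1 (hP m f (P_of_ext hf hmO ?_)), ?_⟩
      · exact (hτ m (sO hmO)).1
      · filter_upwards [(hσ m hV).2, oO.mem_nhds hmO] with m' h2 h3
        rw [μO m' h3]
        refine S.F_congr h2 (E_eq fun x => ?_)
        ring
    · rcases hm with hm | hm | hm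
      · exact absurd hm hmO
      · rw [μ1 m hmO hm.2]
        refine ⟨(hσ m hm.1).1, ?_⟩
        filter_upwards [(hσ m hm.1).2, o₁.mem_nhds hm.2] with m' h2 h3
        exact S.F_congr h2 (E_sub E_rfl (S.E_symm (near1 m' h3)))
      · rw [μ2 m hmO hm.2]
        refine ⟨(hσ' m hm.1).1, ?_⟩
        filter_upwards [(hσ' m hm.1).2, o₂.mem_nhds hm.2] with m' h2 h3
        obtain ⟨a, ha⟩ := near2 m' h3
        have h4 := F_addc h2 (hc m') (-a)
        refine S.F_congr h4 (S.E_trans (E_eq fun x => ?_) (E_sub E_rfl (S.E_symm ha)))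
        ring

end Sys

end Pool.Agent.SYT
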