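import Pool.Agent.SYT.MV1
import Pool.Agent.SYT.MV2
import Pool.Agent.SYH.Bis
import Pool.Agent.SYH.Sph

/-!
# SYT/Cvx: topological images of compact convex sets, and the four-sphere
-/

open Set Filter Topology

namespace Pool.Agent.SYT

namespace Sys

variable {M : Type*} [TopologicalSpace M] [T2Space M] {ι : Type*} {S : Sys M ι} {d : ℕ}
  {γ : (Fin d → ℝ) → M} {C₀ : Set (Fin d → ℝ)}

theorem cvx_inter (hi : InjOn γ C₀) {C : Set (Fin d → ℝ)} (hs : C ⊆ C₀) (k : Fin d) (m : ℝ) :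
    γ '' (C ∩ {x | x k ≤ m}) ∩ γ '' (C ∩ {x | m ≤ x k}) = γ '' (C ∩ {x | x k = m}) := by
  rw [← hi.image_inter (inter_subset_left.trans hs) (inter_subset_left.trans hs)]
  congr 1
  ext x
  simp only [mem_inter_iff, mem_setOf_eq]
  constructor
  · rintro ⟨⟨h1, h2⟩, -, h3⟩
    exact ⟨h1, le_antisymm h2 h3⟩
  · rintro ⟨h1, h2⟩
    exact ⟨⟨h1, h2.le⟩, h1, h2.ge⟩

theorem cvx_union {C : Set (Fin d → ℝ)} (k : Fin d) (m : ℝ) :
    γ '' (C ∩ {x | x k ≤ m}) ∪ γ '' (C ∩ {x | m ≤ x k}) = γ '' C := by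
  rw [← image_union, ← inter_union_distrib_left]
  congr 1
  refine inter_eq_left.2 fun x _ => ?_
  exact le_total (x k) m

theorem cvx_le {C : Set (Fin d → ℝ)} (h : IsCompact C) (k : Fin d) (m : ℝ) :
    IsCompact (C ∩ {x | x k ≤ m}) :=
  h.inter_right (isClosed_le (continuous_apply k) continuous_const)

theorem cvx_ge {C : Set (Fin d → ℝ)} (h : IsCompact C) (k : Fin d) (m : ℝ) :
    IsCompact (C ∩ {x | m ≤ x k}) :=
  h.inter_right (isClosed_le continuous_const (continuous_apply k))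

theorem cvx_eq {C : Set (Fin d → ℝ)} (h : IsCompact C) (k : Fin d) (m : ℝ) :
    IsCompact (C ∩ {x | x k = m}) :=
  h.inter_right (isClosed_eq (continuous_apply k) continuous_const)

theorem cvx_conv {C : Set (Fin d → ℝ)} (h : Convex ℝ C) (k : Fin d) (m : ℝ) :
    Convex ℝ (C ∩ {x | x k = m}) := by
  refine h.inter ?_
  intro x hx y hy a b _ _ hab
  simp only [mem_setOf_eq] at hx hy ⊢
  rw [Pi.add_apply, Pi.smul_apply, Pi.smul_apply, hx, hy, smul_eq_mul, smul_eq_mul, ← add_mul, hab,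
    one_mul]

theorem ex1_convex (hC : IsCompact C₀) (hc : Convex ℝ C₀) (hγ : ContinuousOn γ C₀)
    (hi : InjOn γ C₀) : S.Ex1 (γ '' C₀) := by
  intro V τ hV hR hτ
  refine SYH.bisect (fun C => S.Loc1 V τ (γ '' C)) hC hc ?_ ?_ ?_
  · exact ⟨∅, isOpen_empty, by simp, empty_subset V, fun _ => 0,
      fun m hm => absurd hm (notMem_empty m)⟩
  · intro x hx
    obtain ⟨N, hN, hNo, hxN⟩ := eventually_nhds_iff.1 (hτ _ (hR (mem_image_of_mem γ hx))).2
    have hNV : IsOpen (N ∩ V) := hNo.inter hV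
    have h1 : γ ⁻¹' (N ∩ V) ∈ 𝓝[C₀] x :=
      (hγ x hx) (hNV.mem_nhds ⟨hxN, hR (mem_image_of_mem γ hx)⟩)
    obtain ⟨ε, hε, hb⟩ := Metric.mem_nhdsWithin_iff.1 h1
    refine ⟨ε, hε, fun C hCs _ _ => ⟨N ∩ V, hNV, ?_, inter_subset_right, τ (γ x), ?_⟩⟩
    · rintro _ ⟨y, hy, rfl⟩
      exact hb ⟨(hCs hy).2, (hCs hy).1⟩
    · intro m hm
      exact hN m hm.1
  · intro C hCs hCc hCv k m h1 h2
    rw [← cvx_union k m]
    refine Loc1.union ?_ ?_ ?_ h1 h2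
    · exact (cvx_le hCc k m).image_of_continuousOn (hγ.mono (inter_subset_left.trans hCs))
    · exact (cvx_ge hCc k m).image_of_continuousOn (hγ.mono (inter_subset_left.trans hCs))
    · rw [cvx_inter hi hCs k m]
      exact (cvx_conv hCv k m).isPreconnected.image γ (hγ.mono (inter_subset_left.trans hCs))

/-- local primitives -/
theorem prim_loc {c : M → ι} (hc : ∀ m, m ∈ S.U (c m)) (i : ι) {R : Set M} (hR : R ⊆ S.U i) :
    S.Ex2 c R := by
  classical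
  have hex : ∀ m, ∃ f, m ∈ S.U i → S.F (c m) i m f := by
    intro m
    by_cases h : m ∈ S.U i
    · obtain ⟨f, hf⟩ := S.F_ex (hc m) h
      exact ⟨f, fun _ => hf⟩
    · exact ⟨fun _ => 0, fun h' => absurd h' h⟩
  choose σ hσ using hex
  refine ⟨S.U i, S.opU i, hR, σ, fun m hm => ⟨S.F_P (hσ m hm), ?_⟩⟩
  filter_upwards [S.F_near (hσ m hm), (S.opU i).mem_nhds hm] with m' h1 h2
  have h3 := S.F_add h1 (S.F_neg (hσ m' h2))
  exact S.F_congr h3 (E_eq fun x => (sub_eq_add_neg _ _).symm)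

theorem ex2_convex {c : M → ι} (hcc : ∀ m, m ∈ S.U (c m)) (hC : IsCompact C₀) (hc : Convex ℝ C₀)
    (hγ : ContinuousOn γ C₀) (hi : InjOn γ C₀) : S.Ex2 c (γ '' C₀) := by
  refine SYH.bisect (fun C => S.Ex2 c (γ '' C)) hC hc ?_ ?_ ?_
  · exact ⟨∅, isOpen_empty, by simp, fun _ _ => 0, fun m hm => absurd hm (notMem_empty m)⟩
  · intro x hx
    obtain ⟨i, hi'⟩ := S.cov (γ x)
    have h1 : γ ⁻¹' (S.U i) ∈ 𝓝[C₀] x := (hγ x hx) ((S.opU i).mem_nhds hi')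
    obtain ⟨ε, hε, hb⟩ := Metric.mem_nhdsWithin_iff.1 h1
    refine ⟨ε, hε, fun C hCs _ _ => prim_loc hcc i ?_⟩
    rintro _ ⟨y, hy, rfl⟩
    exact hb ⟨(hCs hy).2, (hCs hy).1⟩
  · intro C hCs hCc hCv k m h1 h2
    rw [← cvx_union k m]
    refine Ex2.union hcc ?_ ?_ h1 h2 ?_
    · exact (cvx_le hCc k m).image_of_continuousOn (hγ.mono (inter_subset_left.trans hCs))
    · exact (cvx_ge hCc k m).image_of_continuousOn (hγ.mono (inter_subset_left.trans hCs))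
    · rw [cvx_inter hi hCs k m]
      exact ex1_convex (cvx_eq hCc k m) (cvx_conv hCv k m)
        (hγ.mono (inter_subset_left.trans hCs)) (hi.mono (inter_subset_left.trans hCs))

end Sys

/-- on the four-sphere there is a global primitive -/
theorem glob {ι : Type*} (S : Sys SYH.S4 ι) (c : SYH.S4 → ι) (hc : ∀ m, m ∈ S.U (c m)) :
    ∃ σ, S.Coh c univ σ := by
  have : CompactSpace SYH.S4 := inferInstance
  obtain ⟨γ₁, γ₂, δ₁, δ₂, c1, i1, c2, i2, c3, i3, c4, i4, h1, h2, h3⟩ := SYH.sphere_decomp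
  have k1 : IsCompact (γ₁ '' SYH.Bd 4) := (SYH.Bd_compact 4).image_of_continuousOn c1
  have k2 : IsCompact (γ₂ '' SYH.Bd 4) := (SYH.Bd_compact 4).image_of_continuousOn c2
  have k3 : IsCompact (δ₁ '' SYH.Bd 3) := (SYH.Bd_compact 3).image_of_continuousOn c3
  have k4 : IsCompact (δ₂ '' SYH.Bd 3) := (SYH.Bd_compact 3).image_of_continuousOn c4
  have e1 : S.Ex1 (δ₁ '' SYH.Bd 3 ∪ δ₂ '' SYH.Bd 3) := by
    intro V τ hV hR hτ
    exact Sys.Loc1.union k3 k4 h3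
      (Sys.ex1_convex (SYH.Bd_compact 3) (SYH.Bd_convex 3) c3 i3 V τ hV
        (subset_union_left.trans hR) hτ)
      (Sys.ex1_convex (SYH.Bd_compact 3) (SYH.Bd_convex 3) c4 i4 V τ hV
        (subset_union_right.trans hR) hτ)
  have e2 : S.Ex2 c (γ₁ '' SYH.Bd 4 ∪ γ₂ '' SYH.Bd 4) :=
    Sys.Ex2.union hc k1 k2 (Sys.ex2_convex hc (SYH.Bd_compact 4) (SYH.Bd_convex 4) c1 i1)
      (Sys.ex2_convex hc (SYH.Bd_compact 4) (SYH.Bd_convex 4) c2 i2) (h2 ▸ e1)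
  obtain ⟨V, -, hV, σ, hσ⟩ := e2
  rw [h1] at hV
  have hV' : V = univ := univ_subset_iff.1 hV
  subst hV'
  exact ⟨σ, hσ⟩

end Pool.Agent.SYT
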