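import Mathlib

/-!
# SYT/Defs: systems of germs, and local potentials on a cover

An abstract form of the following situation.  A topological manifold `M` is covered by the domains `U i` of charts, and in
each chart there is a one-form `λ i` (the standard primitive of the symplectic form).  `E m f g`: the functions `f` and `g`
have the same germ at `m` (for instance: they agree almost everywhere near `m`).  `P m f`: near `m` the function `f` belongs to
the class which is considered.  `F i j m f`: near `m`, `df = λ j - λ i`.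
-/

open Set Filter Topology

namespace Pool.Agent.SYT

structure Sys (M : Type*) [TopologicalSpace M] (ι : Type*) where
  U : ι → Set M
  opU : ∀ i, IsOpen (U i)
  cov : ∀ m, ∃ i, m ∈ U i
  E : M → (M → ℝ) → (M → ℝ) → Prop
  P : M → (M → ℝ) → Prop
  F : ι → ι → M → (M → ℝ) → Prop
  E_near : ∀ {m f g}, E m f g → ∀ᶠ m' in 𝓝 m, E m' f g
  E_of : ∀ {m f g}, (∀ᶠ m' in 𝓝 m, f m' = g m') → E m f g
  E_symm : ∀ {m f g}, E m f g → E m g f
  E_trans : ∀ {m f g h}, E m f g → E m g h → E m f h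
  E_add : ∀ {m f g f' g'}, E m f g → E m f' g' →
    E m (fun x => f x + f' x) (fun x => g x + g' x)
  E_neg : ∀ {m f g}, E m f g → E m (fun x => -f x) (fun x => -g x)
  E_const : ∀ {m} {c c' : ℝ}, E m (fun _ => c) (fun _ => c') → c = c'
  E_pw : ∀ {m f g} {O : Set M}, IsOpen O →
    (∀ᶠ m' in 𝓝 m, (m' ∈ O → E m' f g) ∧ (m' ∉ O → f m' = g m')) → E m f g
  P_congr : ∀ {m f g}, P m f → E m f g → P m g
  P_add : ∀ {m f g}, P m f → P m g → P m (fun x => f x + g x)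
  P_neg : ∀ {m f}, P m f → P m (fun x => -f x)
  P_const : ∀ {m} (c : ℝ), P m (fun _ => c)
  cut : ∀ {K₁ K₂ : Set M}, IsClosed K₁ → IsClosed K₂ → Disjoint K₁ K₂ →
    ∃ (ρ : M → ℝ) (O₁ O₂ : Set M), IsOpen O₁ ∧ IsOpen O₂ ∧ K₁ ⊆ O₁ ∧ K₂ ⊆ O₂ ∧
      (∀ m ∈ O₁, ρ m = 0) ∧ (∀ m ∈ O₂, ρ m = 1) ∧ ∀ m f, P m f → P m (fun x => ρ x * f x)
  F_near : ∀ {i j m f}, F i j m f → ∀ᶠ m' in 𝓝 m, F i j m' f
  F_congr : ∀ {i j m f g}, F i j m f → E m f g → F i j m g
  F_P : ∀ {i j m f}, F i j m f → P m f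
  F_sub : ∀ {i j m f g}, F i j m f → F i j m g → ∃ c : ℝ, E m (fun x => f x - g x) (fun _ => c)
  F_add : ∀ {i j k m f g}, F i j m f → F j k m g → F i k m (fun x => f x + g x)
  F_neg : ∀ {i j m f}, F i j m f → F j i m (fun x => -f x)
  F_const : ∀ {i m} (c : ℝ), m ∈ U i → F i i m (fun _ => c)
  F_ex : ∀ {i j m}, m ∈ U i → m ∈ U j → ∃ f, F i j m f

namespace Sys

variable {M : Type*} [TopologicalSpace M] {ι : Type*} (S : Sys M ι)

/-- `σ` is a primitive on `V`: near `m` the one-form is `λ (c m) + d (σ m)` -/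
def Coh (c : M → ι) (V : Set M) (σ : M → M → ℝ) : Prop :=
  ∀ m ∈ V, S.P m (σ m) ∧ ∀ᶠ m' in 𝓝 m, S.F (c m) (c m') m' (fun x => σ m x - σ m' x)

/-- a closed one-form on `V`: near `m` it is `d (τ m)` -/
def Clo (V : Set M) (τ : M → M → ℝ) : Prop :=
  ∀ m ∈ V, S.P m (τ m) ∧ ∀ᶠ m' in 𝓝 m, ∃ a : ℝ, S.E m' (fun x => τ m x - τ m' x) (fun _ => a)

/-- `f` is a potential of `τ` on `V` -/
def Ext (V : Set M) (f : M → ℝ) (τ : M → M → ℝ) : Prop :=
  ∀ m ∈ V, ∃ a : ℝ, S.E m (fun x => f x - τ m x) (fun _ => a)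

def Loc1 (V : Set M) (τ : M → M → ℝ) (R : Set M) : Prop :=
  ∃ V', IsOpen V' ∧ R ⊆ V' ∧ V' ⊆ V ∧ ∃ f, S.Ext V' f τ

def Ex1 (R : Set M) : Prop :=
  ∀ V τ, IsOpen V → R ⊆ V → S.Clo V τ → S.Loc1 V τ R

def Ex2 (c : M → ι) (R : Set M) : Prop := ∃ V, IsOpen V ∧ R ⊆ V ∧ ∃ σ, S.Coh c V σ

variable {S} {m : M} {f g h f' g' : M → ℝ} {i j : ι}

theorem E_rfl : S.E m f f := S.E_of (Eventually.of_forall fun _ => rfl)

theorem E_eq (h : ∀ x, f x = g x) : S.E m f g := S.E_of (Eventually.of_forall h)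

theorem E_sub (h : S.E m f g) (h' : S.E m f' g') :
    S.E m (fun x => f x - f' x) (fun x => g x - g' x) := by
  have h1 := S.E_add h (S.E_neg h')
  exact S.E_trans (S.E_trans (E_eq fun _ => sub_eq_add_neg _ _) h1)
    (E_eq fun _ => (sub_eq_add_neg _ _).symm)

theorem P_sub (h : S.P m f) (h' : S.P m g) : S.P m (fun x => f x - g x) :=
  S.P_congr (S.P_add h (S.P_neg h')) (E_eq fun _ => (sub_eq_add_neg _ _).symm)

theorem F_addc (h : S.F i j m f) (hj : m ∈ S.U j) (c : ℝ) : S.F i j m (fun x => f x + c) :=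
  S.F_add h (S.F_const c hj)

theorem P_of_ext {V : Set M} {τ : M → M → ℝ} (h : S.Ext V f τ) (hm : m ∈ V) (hP : S.P m (τ m)) :
    S.P m f := by
  obtain ⟨a, ha⟩ := h m hm
  have h1 : S.P m (fun x => τ m x + a) := S.P_add hP (S.P_const a)
  refine S.P_congr h1 ?_
  have h2 := S.E_add (S.E_symm ha) (E_rfl (S := S) (m := m) (f := τ m))
  refine S.E_trans (E_eq fun x => ?_) (S.E_trans h2 (E_eq fun x => ?_))
  · exact add_comm _ _
  · exact sub_add_cancel _ _

end Sys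

end Pool.Agent.SYT
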