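import Pool.Agent.SYT.Defs

/-!
# SYT/MV1: Mayer-Vietoris for exactness near compact sets
-/

open Set Filter Topology

namespace Pool.Agent.SYT

namespace Sys

variable {M : Type*} [TopologicalSpace M] [T2Space M] {ι : Type*} {S : Sys M ι}
  {V R R' : Set M} {τ : M → M → ℝ}

theorem Loc1.union (hR : IsCompact R) (hR' : IsCompact R') (hc : IsPreconnected (R ∩ R'))
    (h : S.Loc1 V τ R) (h' : S.Loc1 V τ R') : S.Loc1 V τ (R ∪ R') := by
  classical
  obtain ⟨V1, o1, r1, s1, f, hf⟩ := h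
  obtain ⟨V2, o2, r2, s2, f', hf'⟩ := h'
  -- the difference is locally constant
  have hd : ∀ m ∈ V1 ∩ V2, ∃ a : ℝ, S.E m (fun x => f x - f' x) (fun _ => a) := by
    intro m hm
    obtain ⟨a, ha⟩ := hf m hm.1
    obtain ⟨b, hb⟩ := hf' m hm.2
    refine ⟨a - b, ?_⟩
    refine S.E_trans (E_eq fun x => ?_) (E_sub ha hb)
    ring
  have huniq : ∀ m (a b : ℝ), S.E m (fun x => f x - f' x) (fun _ => a) →
      S.E m (fun x => f x - f' x) (fun _ => b) → a = b := fun m a b ha hb =>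
    S.E_const (S.E_trans (S.E_symm ha) hb)
  have hop : ∀ a : ℝ, IsOpen {m | S.E m (fun x => f x - f' x) (fun _ => a)} := by
    intro a
    rw [isOpen_iff_mem_nhds]
    intro m hm
    exact S.E_near hm
  have hop' : ∀ a : ℝ, IsOpen {m | ∃ b, b ≠ a ∧ S.E m (fun x => f x - f' x) (fun _ => b)} := by
    intro a
    rw [isOpen_iff_mem_nhds]
    rintro m ⟨b, hb, hm⟩
    filter_upwards [S.E_near hm] with w hw
    exact ⟨b, hb, hw⟩
  have hex : ∃ c : ℝ, ∀ m ∈ R ∩ R', S.E m (fun x => f x - f' x) (fun _ => c) := by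
    rcases (R ∩ R').eq_empty_or_nonempty with he | ⟨m0, hm0⟩
    · exact ⟨0, fun m hm => by rw [he] at hm; exact absurd hm (notMem_empty m)⟩
    · obtain ⟨c, hc0⟩ := hd m0 ⟨r1 hm0.1, r2 hm0.2⟩
      refine ⟨c, fun m hm => ?_⟩
      by_contra hne
      have hcov : R ∩ R' ⊆ {m | S.E m (fun x => f x - f' x) (fun _ => c)} ∪
          {m | ∃ b, b ≠ c ∧ S.E m (fun x => f x - f' x) (fun _ => b)} := by
        intro z hz
        obtain ⟨a, ha⟩ := hd z ⟨r1 hz.1, r2 hz.2⟩
        by_cases hac : a = c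
        · left
          subst hac
          exact ha
        · right
          exact ⟨a, hac, ha⟩
      obtain ⟨z, _, hz1, b, hb, hz2⟩ := hc _ _ (hop c) (hop' c) hcov ⟨m0, hm0, hc0⟩
        ⟨m, hm, (hcov hm).resolve_left hne⟩
      exact hb (huniq z b c hz2 hz1)
  obtain ⟨c, hcc⟩ := hex
  let O : Set M := (V1 ∩ V2) ∩ {m | S.E m (fun x => f x - f' x) (fun _ => c)}
  have hO : IsOpen O := (o1.inter o2).inter (hop c)
  have hRO : R ∩ R' ⊆ O := fun m hm => ⟨⟨r1 hm.1, r2 hm.2⟩, hcc m hm⟩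
  have hOc : ∀ m ∈ O, S.E m f (fun x => f' x + c) := by
    intro m hm
    have h1 : S.E m (fun x => f x - f' x) (fun _ => c) := hm.2
    have h2 := S.E_add h1 (E_rfl (S := S) (m := m) (f := f'))
    refine S.E_trans (E_eq fun x => ?_) (S.E_trans h2 (E_eq fun x => ?_))
    · ring
    · ring
  obtain ⟨B, B', oB, oB', hB, hB', hdis⟩ := SeparatedNhds.of_isCompact_isCompact
    (hR.diff hO) (hR'.diff hO) (by
      rw [Set.disjoint_left]
      rintro m ⟨h1, h2⟩ ⟨h3, _⟩
      exact h2 (hRO ⟨h1, h3⟩))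
  let N1 : Set M := V1 ∩ (B ∪ O)
  let N2 : Set M := V2 ∩ (B' ∪ O)
  have oN1 : IsOpen N1 := o1.inter (oB.union hO)
  have oN2 : IsOpen N2 := o2.inter (oB'.union hO)
  have hN : ∀ m ∈ N1, m ∈ N2 → m ∈ O := by
    rintro m ⟨_, h1⟩ ⟨_, h2⟩
    rcases h1 with h1 | h1
    · rcases h2 with h2 | h2
      · exact absurd h2 (Set.disjoint_left.1 hdis h1)
      · exact h2
    · exact h1
  let G : M → ℝ := fun m => if m ∈ N1 then f m else f' m + c
  refine ⟨N1 ∪ N2, oN1.union oN2, ?_, ?_, G, ?_⟩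
  · rintro m (hm | hm)
    · left
      refine ⟨r1 hm, ?_⟩
      by_cases h : m ∈ O
      · exact Or.inr h
      · exact Or.inl (hB ⟨hm, h⟩)
    · right
      refine ⟨r2 hm, ?_⟩
      by_cases h : m ∈ O
      · exact Or.inr h
      · exact Or.inl (hB' ⟨hm, h⟩)
  · rintro m (hm | hm)
    · exact s1 hm.1
    · exact s2 hm.1
  · rintro m (hm | hm)
    · obtain ⟨a, ha⟩ := hf m hm.1
      refine ⟨a, S.E_trans (E_sub (f' := τ m) (g' := τ m) (S.E_of ?_) E_rfl) ha⟩
      filter_upwards [oN1.mem_nhds hm] with x hx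
      exact if_pos hx
    · obtain ⟨a, ha⟩ := hf' m hm.1
      have h1 : S.E m G (fun x => f' x + c) := by
        refine S.E_pw hO ?_
        filter_upwards [oN2.mem_nhds hm] with x hx
        constructor
        · intro hxO
          have h2 : x ∈ N1 := ⟨hxO.1.1, Or.inr hxO⟩
          refine S.E_trans (S.E_of ?_) (hOc x hxO)
          filter_upwards [oN1.mem_nhds h2] with z hz
          exact if_pos hz
        · intro hxO
          exact if_neg fun h3 => hxO (hN x h3 hx)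
      refine ⟨a + c, ?_⟩
      refine S.E_trans (E_sub (f' := τ m) (g' := τ m) h1 E_rfl) ?_
      have h2 := S.E_add ha (E_rfl (S := S) (m := m) (f := fun _ => c))
      refine S.E_trans (E_eq fun x => ?_) h2
      ring

end Sys

end Pool.Agent.SYT
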